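import Mathlib

set_option autoImplicit false
set_option maxHeartbeats 400000

open scoped Quaternion

namespace Pool.Agent.Results.MP_aafbbc_al.QuatUnits

/-- `G` is the unit group of a finite ring of characteristic `n`. -/
def Realizable (G : Type) [Group G] (n : ℕ) : Prop :=
  ∃ (R : Type) (_ : Ring R), Finite R ∧ addOrderOf (1 : R) = n ∧ Nonempty (Rˣ ≃* G)

/-- `G` is not a direct product of two nontrivial groups. -/
def Indecomposable (G : Type) [Group G] : Prop :=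
  ∀ (A B : Type) [Group A] [Group B], Nonempty (G ≃* A × B) → Subsingleton A ∨ Subsingleton B

abbrev Z := ZMod 64
abbrev Q := ℍ[ZMod 64, -1, 0, 5]

def par : Z →+* ZMod 2 := ZMod.castHom (by norm_num) (ZMod 2)

theorem par_cases : ∀ x : Z, par x = 0 ∨ ∃ y : Z, y * x = 1 := by decide +kernel
theorem par_half : ∀ x : Z, 2 * x = 0 → ∃ y : Z, x = 32 * y := by decide +kernel
theorem par_odd : ∀ x : Z, par x ≠ 0 → 32 * x = 32 ∧ (∃ t : Z, x = 1 + 2 * t) ∧
    ∃ e : Fin 2, ∃ k : Fin 16, x = (-1) ^ (e : ℕ) * 5 ^ (k : ℕ) := by decide +kernel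
theorem h64 : (64 : Z) = 0 := by decide
theorem par2 : par 2 = 0 := by decide

theorem comm_iff (u v : Q) : u * v = v * u ↔
    2 * (u.imI * v.imJ - u.imJ * v.imI) = 0 ∧ 2 * (u.imI * v.imK - u.imK * v.imI) = 0 ∧
      2 * (u.imJ * v.imK - u.imK * v.imJ) = 0 := by
  have := h64
  constructor
  · intro h
    have h1 := congrArg QuaternionAlgebra.imI h
    have h2 := congrArg QuaternionAlgebra.imJ h
    have h3 := congrArg QuaternionAlgebra.imK h
    simp only [QuaternionAlgebra.imI_mul, QuaternionAlgebra.imJ_mul,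
      QuaternionAlgebra.imK_mul] at h1 h2 h3
    refine ⟨?_, ?_, ?_⟩
    · linear_combination h3
    · linear_combination -h2
    · linear_combination (-13) * h1 - 2 * (u.imJ * v.imK - u.imK * v.imJ) * this
  · rintro ⟨h1, h2, h3⟩
    ext
    · simp only [QuaternionAlgebra.re_mul]; ring
    · simp only [QuaternionAlgebra.imI_mul]; linear_combination (-5) * h3
    · simp only [QuaternionAlgebra.imJ_mul]; linear_combination -h2
    · simp only [QuaternionAlgebra.imK_mul]; linear_combination h1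

/-- all pure coordinates even -/
def Ev (u : Q) : Prop := par u.imI = 0 ∧ par u.imJ = 0 ∧ par u.imK = 0

theorem pivot {A : Type*} [CommRing A] (y p q r vp vq vr wp wq wr : A) (hy : y * p = 1)
    (h1 : 2 * (p * vq - q * vp) = 0) (h2 : 2 * (p * vr - r * vp) = 0)
    (h3 : 2 * (p * wq - q * wp) = 0) (h4 : 2 * (p * wr - r * wp) = 0) :
    2 * (vp * wq - vq * wp) = 0 ∧ 2 * (vp * wr - vr * wp) = 0 ∧ 2 * (vq * wr - vr * wq) = 0 := by
  have e1 : 2 * vq = 2 * y * q * vp := by linear_combination y * h1 - 2 * vq * hy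
  have e2 : 2 * vr = 2 * y * r * vp := by linear_combination y * h2 - 2 * vr * hy
  have e3 : 2 * wq = 2 * y * q * wp := by linear_combination y * h3 - 2 * wq * hy
  have e4 : 2 * wr = 2 * y * r * wp := by linear_combination y * h4 - 2 * wr * hy
  refine ⟨?_, ?_, ?_⟩
  · linear_combination vp * e3 - wp * e1
  · linear_combination vp * e4 - wp * e2
  · linear_combination wr * e1 - wq * e2 + y * vp * q * e4 - y * vp * r * e3

theorem comm_of_not_ev (u v w : Q) (hu : ¬ Ev u) (h1 : u * v = v * u) (h2 : u * w = w * u) :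
    v * w = w * v := by
  rw [comm_iff] at h1 h2 ⊢
  obtain ⟨a1, a2, a3⟩ := h1
  obtain ⟨b1, b2, b3⟩ := h2
  rcases par_cases u.imI with hI | ⟨y, hy⟩
  · rcases par_cases u.imJ with hJ | ⟨y, hy⟩
    · rcases par_cases u.imK with hK | ⟨y, hy⟩
      · exact absurd ⟨hI, hJ, hK⟩ hu
      · obtain ⟨c1, c2, c3⟩ := pivot y u.imK u.imI u.imJ v.imK v.imI v.imJ w.imK w.imI w.imJ hy
          (by linear_combination -a2) (by linear_combination -a3) (by linear_combination -b2)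
          (by linear_combination -b3)
        exact ⟨c3, by linear_combination -c1, by linear_combination -c2⟩
    · obtain ⟨c1, c2, c3⟩ := pivot y u.imJ u.imI u.imK v.imJ v.imI v.imK w.imJ w.imI w.imK hy
          (by linear_combination -a1) a3 (by linear_combination -b1) b3
      exact ⟨by linear_combination -c1, c3, c2⟩
  · exact pivot y u.imI u.imJ u.imK v.imI v.imJ v.imK w.imI w.imJ w.imK hy a1 a2 b1 b2

theorem ev_mul (u v : Q) (hu : Ev u) (hv : Ev v) : par (u * v).imI = 0 := by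
  obtain ⟨a1, a2, a3⟩ := hu
  obtain ⟨b1, b2, b3⟩ := hv
  simp [QuaternionAlgebra.imI_mul, a1, a2, a3, b1, b2, b3]

def nrm (u : Q) : Z := u.re ^ 2 + u.imI ^ 2 - 5 * u.imJ ^ 2 - 5 * u.imK ^ 2

theorem nrm_mul (u v : Q) : nrm (u * v) = nrm u * nrm v := by
  simp only [nrm, QuaternionAlgebra.re_mul, QuaternionAlgebra.imI_mul, QuaternionAlgebra.imJ_mul,
    QuaternionAlgebra.imK_mul]
  ring

theorem nrm_odd (u : Qˣ) : par (nrm u) ≠ 0 := by
  intro h
  have h1 := nrm_mul u (u⁻¹ : Qˣ)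
  rw [Units.mul_inv] at h1
  have h2 := congrArg par h1
  rw [map_mul, h, zero_mul] at h2
  revert h2
  decide

theorem two_pow_step {R : Type*} [Ring R] (w : R) (k : ℕ) :
    ∃ w' : R, (1 + 2 * w) ^ (2 ^ k) = 1 + 2 ^ (k + 1) * w' := by
  induction k with
  | zero => exact ⟨w, by simp⟩
  | succ k ih =>
    obtain ⟨w', h⟩ := ih
    refine ⟨w' + 2 ^ k * (w' * w'), ?_⟩
    rw [pow_succ 2 k, pow_mul, h]
    have c : w' * (2 : R) ^ (k + 1) = 2 ^ (k + 1) * w' := by
      have : Commute (2 : R) w' := Commute.ofNat_left 2 w'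
      exact ((this.pow_left (k + 1)).eq).symm
    have e1 : (2 : R) ^ (k + 1 + 1) = 2 ^ (k + 1) + 2 ^ (k + 1) := by rw [pow_succ, mul_two]
    have e2 : (2 : R) ^ (k + 1 + 1) * 2 ^ k = 2 ^ (k + 1) * 2 ^ (k + 1) := by
      rw [← pow_add, ← pow_add]; congr 1; omega
    rw [mul_add, ← mul_assoc, e2, e1, sq, add_mul, mul_add, mul_add, add_mul]
    simp only [one_mul, mul_one]
    rw [mul_assoc (2 ^ (k + 1)) w', ← mul_assoc w', c]
    simp only [mul_assoc, add_assoc]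

theorem q64 : (2 : Q) ^ 6 = 0 := by
  have : (2 : Q) = algebraMap Z Q 2 := (map_ofNat (algebraMap Z Q) 2).symm
  rw [this, ← map_pow]
  have : (2 : Z) ^ 6 = 0 := by decide
  rw [this, map_zero]

theorem unit_pow (u : Qˣ) : u ^ (2 ^ 6) = 1 := by
  obtain ⟨-, ⟨t, ht⟩, -⟩ := par_odd _ (nrm_odd u)
  have h : (u : Q) ^ 2 = 1 + 2 * ((u : Q).re • (u : Q) - algebraMap Z Q (1 + t)) := by
    rw [two_mul, sq]
    simp only [nrm] at ht
    ext
    · simp [QuaternionAlgebra.algebraMap_eq]; linear_combination -ht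
    · simp [QuaternionAlgebra.algebraMap_eq]; ring
    · simp [QuaternionAlgebra.algebraMap_eq]; ring
    · simp [QuaternionAlgebra.algebraMap_eq]; ring
  obtain ⟨w', hw⟩ := two_pow_step ((u : Q).re • (u : Q) - algebraMap Z Q (1 + t)) 5
  apply Units.ext
  rw [Units.val_pow_eq_pow_val, show 2 ^ 6 = 2 * 2 ^ 5 by norm_num, pow_mul, h, hw, q64]
  simp

def uI : Qˣ := ⟨⟨0, 1, 0, 0⟩, ⟨0, -1, 0, 0⟩, by ext <;> simp, by ext <;> simp⟩
def uJ : Qˣ := ⟨⟨0, 0, 1, 0⟩, ⟨0, 0, 13, 0⟩, by ext <;> simp; decide, by ext <;> simp; decide⟩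

theorem uI_sq : ((uI ^ 2 : Qˣ) : Q) = algebraMap Z Q (-1) := by
  rw [Units.val_pow_eq_pow_val, sq]; ext <;> simp [uI, QuaternionAlgebra.algebraMap_eq]
theorem uJ_sq : ((uJ ^ 2 : Qˣ) : Q) = algebraMap Z Q 5 := by
  rw [Units.val_pow_eq_pow_val, sq]; ext <;> simp [uJ, QuaternionAlgebra.algebraMap_eq]

theorem central (z : Qˣ) (hz : ∀ g : Qˣ, z * g = g * z) :
    ∃ (e k : ℕ) (w : Qˣ), k < 16 ∧ z = (uI ^ 2) ^ e * (uJ ^ 2) ^ k * w ^ 2 ∧
      z ^ 2 = ((uJ ^ 2) ^ 2) ^ k := by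
  have h := h64
  have h1 := (comm_iff z uI).1 (by simpa using congrArg Units.val (hz uI))
  have h2 := (comm_iff z uJ).1 (by simpa using congrArg Units.val (hz uJ))
  simp only [uI, uJ] at h1 h2
  obtain ⟨b, hb⟩ := par_half (z : Q).imI (by linear_combination h2.1)
  obtain ⟨c, hc⟩ := par_half (z : Q).imJ (by linear_combination -h1.1)
  obtain ⟨d, hd⟩ := par_half (z : Q).imK (by linear_combination -h1.2.1)
  have hs : par (z : Q).re ≠ 0 := by
    intro h0
    apply nrm_odd z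
    have : nrm z = (z : Q).re ^ 2 := by
      rw [nrm, hb, hc, hd]; linear_combination (16 * b ^ 2 - 80 * c ^ 2 - 80 * d ^ 2) * h
    rw [this, map_pow, h0]; simp
  obtain ⟨h32, -, e, k, hk⟩ := par_odd _ hs
  let w : Qˣ := ⟨⟨1, 16 * b, 16 * c, 16 * d⟩, ⟨1, -(16 * b), -(16 * c), -(16 * d)⟩,
    by
      ext <;> simp
      · linear_combination (4 * b ^ 2 - 20 * c ^ 2 - 20 * d ^ 2) * h
      all_goals ring,
    by
      ext <;> simp
      · linear_combination (4 * b ^ 2 - 20 * c ^ 2 - 20 * d ^ 2) * h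
      all_goals ring⟩
  refine ⟨e, k, w, k.2, ?_, ?_⟩
  · apply Units.ext
    rw [Units.val_mul, Units.val_mul, Units.val_pow_eq_pow_val (uI ^ 2),
      Units.val_pow_eq_pow_val (uJ ^ 2), uI_sq, uJ_sq, ← map_pow, ← map_pow, ← map_mul, ← hk,
      Units.val_pow_eq_pow_val, sq]
    ext <;> simp [w, QuaternionAlgebra.algebraMap_eq]
    · linear_combination (4 * b ^ 2 - 20 * c ^ 2 - 20 * d ^ 2) * (z : Q).re * h
    · linear_combination hb - b * h32
    · linear_combination hc - c * h32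
    · linear_combination hd - d * h32
  · apply Units.ext
    rw [Units.val_pow_eq_pow_val ((uJ ^ 2) ^ 2), Units.val_pow_eq_pow_val (uJ ^ 2), uJ_sq,
      ← map_pow, ← map_pow, Units.val_pow_eq_pow_val, sq]
    have e2 : (z : Q).re ^ 2 = (5 ^ 2) ^ (k : ℕ) := by
      rw [hk, mul_pow, ← pow_mul, ← pow_mul, ← pow_mul, mul_comm (e : ℕ) 2, pow_mul,
        mul_comm (k : ℕ) 2]
      simp
    rw [← e2]
    ext <;> simp [QuaternionAlgebra.algebraMap_eq, hb, hc, hd]
    · linear_combination (-16 * b ^ 2 + 80 * c ^ 2 + 80 * d ^ 2) * h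
    · linear_combination ((z : Q).re * b) * h
    · linear_combination ((z : Q).re * c) * h
    · linear_combination ((z : Q).re * d) * h

theorem factor_trivial (A B : Type) [Group A] [Group B] (e : Qˣ ≃* A × B)
    (hB : ∀ x y : B, x * y = y * x) : Subsingleton B := by
  letI : CommGroup B := { (inferInstance : Group B) with mul_comm := hB }
  let p : Qˣ →* B := (MonoidHom.snd A B).comp e.toMonoidHom
  have hsq : ∀ b : B, ∃ c : B, b = c ^ 2 := by
    intro b
    obtain ⟨i, k, w, -, h, -⟩ := central (e.symm (1, b)) (by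
      intro g
      apply e.injective
      simp only [map_mul, MulEquiv.apply_symm_apply]
      ext
      · simp
      · simp [hB b])
    have h2 := congrArg p h
    have h3 : p (e.symm (1, b)) = b := by simp [p]
    rw [h3] at h2
    refine ⟨p uI ^ i * p uJ ^ k * p w, ?_⟩
    rw [h2]
    simp only [map_mul, map_pow, mul_pow, ← pow_mul, mul_comm]
  have hn : ∀ n : ℕ, ∀ b : B, ∃ c : B, b = c ^ (2 ^ n) := by
    intro n
    induction n with
    | zero => exact fun b => ⟨b, by simp⟩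
    | succ n ih =>
      intro b
      obtain ⟨c, hc⟩ := ih b
      obtain ⟨d, hd⟩ := hsq c
      exact ⟨d, by rw [hc, hd, ← pow_mul, pow_succ']⟩
  have h1 : ∀ b : B, b = 1 := by
    intro b
    obtain ⟨c, hc⟩ := hn 6 b
    have h3 : p (e.symm (1, c)) = c := by simp [p]
    rw [hc, ← h3, ← map_pow, unit_pow, map_one]
  exact ⟨fun a b => by rw [h1 a, h1 b]⟩

theorem half (A B : Type) [Group A] [Group B] (e : Qˣ ≃* A × B) (a : A)
    (ha : ¬ Ev (e.symm (a, 1) : Qˣ)) : Subsingleton B := by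
  apply factor_trivial A B e
  intro x y
  have c : ∀ x : B, ((e.symm (a, 1) : Qˣ) : Q) * (e.symm (1, x) : Qˣ)
      = (e.symm (1, x) : Qˣ) * (e.symm (a, 1) : Qˣ) := by
    intro x
    rw [← Units.val_mul, ← Units.val_mul, ← map_mul, ← map_mul]; simp
  have := comm_of_not_ev _ _ _ ha (c x) (c y)
  rw [← Units.val_mul, ← Units.val_mul, ← map_mul, ← map_mul, Units.val_inj] at this
  simpa using e.symm.injective this

theorem indec : Indecomposable Qˣ := by
  rintro A B _ _ ⟨e⟩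
  by_cases ha : Ev (e.symm ((e uI).1, 1) : Qˣ)
  · by_cases hb : Ev (e.symm (1, (e uI).2) : Qˣ)
    · have := ev_mul _ _ ha hb
      rw [← Units.val_mul, ← map_mul] at this
      simp only [Prod.mk_mul_mk, mul_one, one_mul, Prod.mk.eta, MulEquiv.symm_apply_apply] at this
      exact absurd this (by decide)
    · left
      refine half B A (e.trans (MulEquiv.prodComm)) (e uI).2 ?_
      simpa using hb
  · right
    exact half A B e _ ha

theorem poly {A : Type*} [CommRing A] (t : A) (h2 : (2 : A) = 0) (h8 : t ^ 8 = 0) (k : ℕ)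
    (hk : k < 16) (h : (1 + t) ^ k = 1 + t ^ 3) : t ^ 4 = 0 := by
  interval_cases k
  · linear_combination ((1)*t^1) * h + (0) * h8 + ((1)*t^4) * h2
  · linear_combination ((1)*t^3 + (1)*t^5) * h + ((1)*t^0) * h8 + (0) * h2
  · linear_combination ((1)*t^2 + (1)*t^3 + (1)*t^4 + (1)*t^5) * h + ((1)*t^0) * h8 + ((-1)*t^3 + (-1)*t^4 + (-1)*t^5 + (-1)*t^6) * h2
  · linear_combination ((1)*t^3 + (1)*t^4 + (1)*t^5 + (1)*t^6) * h + ((-3)*t^0) * h8 + ((-1)*t^4 + (-3)*t^5 + (-3)*t^6 + (-3)*t^7) * h2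
  · linear_combination ((1)*t^1 + (1)*t^2 + (1)*t^3 + (1)*t^4) * h + ((-1)*t^0) * h8 + ((-2)*t^2 + (-5)*t^3 + (-6)*t^4 + (-7)*t^5 + (-5)*t^6 + (-2)*t^7) * h2
  · linear_combination ((1)*t^3 + (1)*t^5 + (1)*t^6) * h + ((-20)*t^0 + (-14)*t^1 + (-6)*t^2 + (-1)*t^3) * h8 + ((-2)*t^4 + (-5)*t^5 + (-7)*t^6 + (-10)*t^7) * h2
  · linear_combination ((1)*t^2 + (1)*t^3 + (1)*t^5) * h + ((-26)*t^0 + (-16)*t^1 + (-6)*t^2 + (-1)*t^3) * h8 + ((-3)*t^3 + (-10)*t^4 + (-17)*t^5 + (-20)*t^6 + (-18)*t^7) * h2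
  · linear_combination ((1)*t^3 + (1)*t^4 + (1)*t^5) * h + ((-90)*t^0 + (-63)*t^1 + (-29)*t^2 + (-8)*t^3 + (-1)*t^4) * h8 + ((-3)*t^4 + (-14)*t^5 + (-31)*t^6 + (-45)*t^7) * h2
  · linear_combination ((1)*t^1) * h + ((-8)*t^0 + (-1)*t^1) * h8 + ((-4)*t^2 + (-14)*t^3 + (-27)*t^4 + (-35)*t^5 + (-28)*t^6 + (-14)*t^7) * h2
  · linear_combination ((1)*t^3 + (1)*t^5) * h + ((-209)*t^0 + (-210)*t^1 + (-162)*t^2 + (-93)*t^3 + (-37)*t^4 + (-9)*t^5 + (-1)*t^6) * h8 + ((-4)*t^4 + (-18)*t^5 + (-46)*t^6 + (-81)*t^7) * h2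
  · linear_combination ((1)*t^2 + (1)*t^3 + (1)*t^4 + (1)*t^5) * h + ((-791)*t^0 + (-792)*t^1 + (-627)*t^2 + (-385)*t^3 + (-176)*t^4 + (-56)*t^5 + (-11)*t^6 + (-1)*t^7) * h8 + ((-5)*t^3 + (-27)*t^4 + (-87)*t^5 + (-192)*t^6 + (-313)*t^7) * h2
  · linear_combination ((1)*t^3 + (1)*t^4 + (1)*t^5 + (1)*t^6) * h + ((-1011)*t^0 + (-1418)*t^1 + (-1584)*t^2 + (-1419)*t^3 + (-1012)*t^4 + (-561)*t^5 + (-232)*t^6 + (-67)*t^7 + (-12)*t^8 + (-1)*t^9) * h8 + ((-5)*t^4 + (-33)*t^5 + (-115)*t^6 + (-280)*t^7) * h2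
  · linear_combination ((1)*t^1 + (1)*t^2 + (1)*t^3 + (1)*t^4) * h + ((-3003)*t^0 + (-3003)*t^1 + (-2431)*t^2 + (-1573)*t^3 + (-793)*t^4 + (-299)*t^5 + (-79)*t^6 + (-13)*t^7 + (-1)*t^8) * h8 + ((-6)*t^2 + (-39)*t^3 + (-148)*t^4 + (-396)*t^5 + (-786)*t^6 + (-1215)*t^7) * h2
  · linear_combination ((1)*t^3 + (1)*t^5 + (1)*t^6) * h + ((-1650)*t^0 + (-2716)*t^1 + (-3718)*t^2 + (-4290)*t^3 + (-4147)*t^4 + (-3289)*t^5 + (-2080)*t^6 + (-1014)*t^7 + (-365)*t^8 + (-91)*t^9 + (-14)*t^10 + (-1)*t^11) * h8 + ((-6)*t^4 + (-39)*t^5 + (-149)*t^6 + (-403)*t^7) * h2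
  · linear_combination ((1)*t^2 + (1)*t^3 + (1)*t^5) * h + ((-5368)*t^0 + (-7436)*t^1 + (-8437)*t^2 + (-8008)*t^3 + (-6435)*t^4 + (-4368)*t^5 + (-2457)*t^6 + (-1106)*t^7 + (-379)*t^8 + (-92)*t^9 + (-14)*t^10 + (-1)*t^11) * h8 + ((-7)*t^3 + (-52)*t^4 + (-227)*t^5 + (-689)*t^6 + (-1547)*t^7) * h2
  · linear_combination ((1)*t^3 + (1)*t^4 + (1)*t^5) * h + ((-4822)*t^0 + (-9373)*t^1 + (-14443)*t^2 + (-17875)*t^3 + (-17875)*t^4 + (-14443)*t^5 + (-9373)*t^6 + (-4823)*t^7 + (-1925)*t^8 + (-575)*t^9 + (-121)*t^10 + (-16)*t^11 + (-1)*t^12) * h8 + ((-7)*t^4 + (-60)*t^5 + (-287)*t^6 + (-962)*t^7) * h2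

theorem poly' {S : Type*} [Ring S] (t : S) (h2 : (2 : S) = 0) (h8 : t ^ 8 = 0) (k : ℕ)
    (hk : k < 16) (h : (1 + t) ^ k = 1 + t ^ 3) : t ^ 4 = 0 := by
  letI : CommRing (Subring.closure ({t} : Set S)) :=
    Subring.closureCommRingOfComm (by rintro _ rfl _ rfl; rfl)
  have := poly (A := Subring.closure ({t} : Set S)) ⟨t, Subring.subset_closure rfl⟩
    (Subtype.ext h2) (Subtype.ext h8) k hk (Subtype.ext h)
  exact congrArg Subtype.val this

theorem not_real : ¬ Realizable Qˣ 2 := by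
  rintro ⟨S, _, -, hc, ⟨e⟩⟩
  have h2 : (2 : S) = 0 := by
    have := addOrderOf_nsmul_eq_zero (1 : S)
    rw [hc] at this
    simpa using this
  let x : Sˣ := e.symm (uJ ^ 2)
  have hx : ∀ g : Sˣ, x * g = g * x := by
    intro g
    apply e.injective
    simp only [x, map_mul, MulEquiv.apply_symm_apply]
    apply Units.ext
    rw [Units.val_mul, Units.val_mul, uJ_sq, Algebra.commutes]
  have hx16 : x ^ 16 = 1 := by
    rw [← map_pow, MulEquiv.map_eq_one_iff]
    apply Units.ext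
    rw [Units.val_pow_eq_pow_val, uJ_sq, ← map_pow, show (5 : Z) ^ 16 = 1 by decide, map_one,
      Units.val_one]
  have hx8 : x ^ 8 ≠ 1 := by
    rw [← map_pow, Ne, MulEquiv.map_eq_one_iff]
    intro h
    have := congrArg Units.val h
    rw [Units.val_pow_eq_pow_val, uJ_sq, ← map_pow] at this
    have := congrArg QuaternionAlgebra.re this
    revert this
    decide
  have sq1 : ∀ a : S, (1 + a) ^ 2 = 1 + a ^ 2 := by
    intro a
    have : (1 + a) ^ 2 = 1 + a ^ 2 + 2 * a := by noncomm_ring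
    rw [this, h2]; simp
  have h11 : ∀ a : S, 1 + (1 + a) = a := by
    intro a; rw [← add_assoc, one_add_one_eq_two, h2, zero_add]
  set j : S := 1 + (x : S) with hj
  have hxj : (x : S) = 1 + j := by rw [hj, h11]
  have p2 : (x : S) ^ 2 = 1 + j ^ 2 := by rw [hxj, sq1]
  have p4 : (x : S) ^ 4 = 1 + j ^ 4 := by
    rw [show 4 = 2 * 2 by rfl, pow_mul, p2, sq1, ← pow_mul]
  have p8 : (x : S) ^ 8 = 1 + j ^ 8 := by
    rw [show 8 = 4 * 2 by rfl, pow_mul, p4, sq1, ← pow_mul]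
  have p16 : (x : S) ^ 16 = 1 + j ^ 16 := by
    rw [show 16 = 8 * 2 by rfl, pow_mul, p8, sq1, ← pow_mul]
  have j16 : j ^ 16 = 0 := by
    have := congrArg Units.val hx16
    rw [Units.val_pow_eq_pow_val, p16] at this
    simpa using this
  have hu : IsUnit (1 + j ^ 3) := by
    refine IsNilpotent.isUnit_one_add ⟨6, ?_⟩
    rw [← pow_mul, show 3 * 6 = 16 + 2 by rfl, pow_add, j16, zero_mul]
  obtain ⟨y, hy⟩ := hu
  have hyc : ∀ g : Sˣ, y * g = g * y := by
    intro g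
    apply Units.ext
    have c : Commute (x : S) g := congrArg Units.val (hx g)
    have c2 : Commute (1 + j ^ 3) (g : S) :=
      (Commute.one_left _).add_left (((Commute.one_left _).add_left c).pow_left 3)
    rw [Units.val_mul, Units.val_mul, hy]
    exact c2.eq
  obtain ⟨-, k, -, hk, -, h⟩ := central (e y) (by
    intro g
    obtain ⟨g, rfl⟩ := e.surjective g
    rw [← map_mul, ← map_mul, hyc])
  have h' : y ^ 2 = (x ^ 2) ^ k := by
    apply e.injective
    simpa [x] using h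
  have h3 := congrArg Units.val h'
  rw [Units.val_pow_eq_pow_val, Units.val_pow_eq_pow_val, Units.val_pow_eq_pow_val, hy, p2,
    sq1] at h3
  have := poly' (j ^ 2) h2 (by rw [← pow_mul]; exact j16) k hk
    (by rw [← h3, ← pow_mul, ← pow_mul])
  apply hx8
  apply Units.ext
  rw [Units.val_pow_eq_pow_val, p8, show 8 = 2 * 4 by rfl, pow_mul, this]
  simp

theorem result : ∃ (G : Type) (_ : Group G), Finite G ∧ (∃ n : ℕ, Nat.card G = 2 ^ n) ∧
    Indecomposable G ∧ (∃ m : ℕ, 2 ≤ m ∧ Realizable G (2 ^ m)) ∧ ¬ Realizable G 2 := by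
  have hf : Finite Q := Finite.of_equiv _ (QuaternionAlgebra.equivProd (-1 : Z) 0 5).symm
  refine ⟨Qˣ, inferInstance, inferInstance, ?_, indec, ⟨6, by norm_num, Q, inferInstance, hf, ?_,
    ⟨MulEquiv.refl _⟩⟩, not_real⟩
  · have : Fact (Nat.Prime 2) := ⟨Nat.prime_two⟩
    exact IsPGroup.iff_card.1 fun g => ⟨6, unit_pow g⟩
  · have := addOrderOf_injective (algebraMap Z Q).toAddMonoidHom
      QuaternionAlgebra.algebraMap_injective 1
    rw [ZMod.addOrderOf_one] at this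
    simpa using this

end Pool.Agent.Results.MP_aafbbc_al.QuatUnits
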